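import Pool.Agent.Helper85.LN.Goals

/-!
# PCHK: the check of a certificate is primitive recursive (project LN)
-/

namespace Pool.Agent.Helper61.LN

open Pool.Agent.Helper85.LN

universe u v

section Comb

variable {α : Type u} {β : Type v} [Primcodable α] [Primcodable β]

theorem all_mem {f : α → List β} {p : α → β → Prop} (hf : Primrec f)
    (hp : PrimrecPred fun q : α × β => p q.1 q.2) :
    PrimrecPred fun a => ∀ b ∈ f a, p a b := by
  have h1 : PrimrecRel (fun (b : β) (a : α) => p a b) := hp.comp (Primrec.snd.pair Primrec.fst)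
  exact (PrimrecRel.forall_mem_list h1).comp hf Primrec.id

theorem ex_mem {f : α → List β} {p : α → β → Prop} (hf : Primrec f)
    (hp : PrimrecPred fun q : α × β => p q.1 q.2) :
    PrimrecPred fun a => ∃ b ∈ f a, p a b := by
  have h1 : PrimrecRel (fun (b : β) (a : α) => p a b) := hp.comp (Primrec.snd.pair Primrec.fst)
  exact (PrimrecRel.exists_mem_list h1).comp hf Primrec.id

theorem all_lt {f : α → ℕ} {p : α → ℕ → Prop} (hf : Primrec f)
    (hp : PrimrecPred fun q : α × ℕ => p q.1 q.2) :
    PrimrecPred fun a => ∀ b < f a, p a b :=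
  (all_mem (f := fun a => List.range (f a)) (p := p) (Primrec.list_range.comp hf) hp).of_eq
    (fun a => by simp)

theorem ex_lt {f : α → ℕ} {p : α → ℕ → Prop} (hf : Primrec f)
    (hp : PrimrecPred fun q : α × ℕ => p q.1 q.2) :
    PrimrecPred fun a => ∃ b < f a, p a b :=
  (ex_mem (f := fun a => List.range (f a)) (p := p) (Primrec.list_range.comp hf) hp).of_eq
    (fun a => by simp)

theorem eqp {f g : α → β} (hf : Primrec f) (hg : Primrec g) : PrimrecPred fun a => f a = g a :=
  Primrec.eq.comp hf hg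

theorem ltp {f g : α → ℕ} (hf : Primrec f) (hg : Primrec g) : PrimrecPred fun a => f a < g a :=
  Primrec.nat_lt.comp hf hg

theorem getDp {f : α → List β} {g : α → ℕ} (d : β) (hf : Primrec f) (hg : Primrec g) :
    Primrec fun a => (f a).getD (g a) d :=
  (Primrec.list_getD d).comp hf hg

theorem appp {f g : α → List β} (hf : Primrec f) (hg : Primrec g) :
    Primrec fun a => f a ++ g a :=
  Primrec.list_append.comp hf hg

theorem memp {f : α → List β} {g : α → β} (hf : Primrec f) (hg : Primrec g) :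
    PrimrecPred fun a => g a ∈ f a :=
  (ex_mem (p := fun a b => b = g a) hf (eqp Primrec.snd (hg.comp Primrec.fst))).of_eq
    (fun a => by simp)

end Comb

section Main

variable {α : Type u} [Primcodable α]

theorem iwCp {f : α → WC} (hf : Primrec f) : Primrec fun a => iwC (f a) := by
  refine Primrec.list_reverse.comp (Primrec.list_map hf ?_)
  exact (Primrec.fst.comp Primrec.snd).pair (Primrec.not.comp (Primrec.snd.comp Primrec.snd))

variable {T : α → Tab} {s : α → ℕ × Bool} {z : α → ℕ}

theorem outRow (hT : Primrec T) {q : α → ℕ} (hq : Primrec q) :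
    Primrec fun a => (T a).1.getD (q a) [] :=
  getDp [] (Primrec.fst.comp hT) hq

theorem secRow (hT : Primrec T) {q : α → ℕ} (hq : Primrec q) :
    Primrec fun a => (T a).2.getD (q a) [] :=
  getDp [] (Primrec.snd.comp hT) hq

theorem ltCp (hT : Primrec T) (hs : Primrec s) (hz : Primrec z) :
    Primrec fun a => ltC (T a) (s a) (z a) := by
  have h1 := outRow hT (Primrec.fst.comp hs)
  exact Primrec.cond (Primrec.snd.comp hs) (getDp 0 h1 hz) (Primrec.list_idxOf.comp hz h1)

theorem scCp (hT : Primrec T) (hs : Primrec s) (hz : Primrec z) :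
    Primrec fun a => scC (T a) (s a) (z a) := by
  have h1 := outRow hT (Primrec.fst.comp hs)
  have h2 := secRow hT (Primrec.fst.comp hs)
  exact Primrec.cond (Primrec.snd.comp hs) (getDp [] h2 hz)
    (iwCp (getDp [] h2 (Primrec.list_idxOf.comp hz h1)))

theorem runCp {w : α → WC} (hT : Primrec T) (hw : Primrec w) (hz : Primrec z) :
    Primrec fun a => runC (T a) (w a) (z a) := by
  refine Primrec.list_foldr (f := w) (g := fun a => ((z a, []) : ℕ × WC))
    (h := fun a q => (ltC (T a) q.1 q.2.1, scC (T a) q.1 q.2.1 ++ q.2.2)) hw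
    (hz.pair (Primrec.const [])) ?_
  have hT' : Primrec fun p : α × ((ℕ × Bool) × (ℕ × WC)) => T p.1 := hT.comp Primrec.fst
  have hs' : Primrec fun p : α × ((ℕ × Bool) × (ℕ × WC)) => p.2.1 :=
    Primrec.fst.comp Primrec.snd
  have hz' : Primrec fun p : α × ((ℕ × Bool) × (ℕ × WC)) => p.2.2.1 :=
    Primrec.fst.comp (Primrec.snd.comp Primrec.snd)
  have hw' : Primrec fun p : α × ((ℕ × Bool) × (ℕ × WC)) => p.2.2.2 :=
    Primrec.snd.comp (Primrec.snd.comp Primrec.snd)
  exact (ltCp hT' hs' hz').pair (appp (scCp hT' hs' hz') hw')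

theorem tabAp {x : α → AC} (hx : Primrec x) : Primrec fun a => tabA (x a) := by
  refine (Primrec.snd.comp (Primrec.snd.comp hx)).pair ?_
  refine Primrec.list_map (Primrec.fst.comp (Primrec.snd.comp hx)) ?_
  refine Primrec.list_map (f := fun p : α × List ℕ => p.2)
    (g := fun _ s => ([(s, true)] : WC)) Primrec.snd ?_
  exact Primrec.list_cons.comp (Primrec.snd.pair (Primrec.const true)) (Primrec.const [])

theorem OkCp {m : α → ℕ} {w : α → WC} (hm : Primrec m) (hw : Primrec w) :
    PrimrecPred fun a => OkC (m a) (w a) :=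
  all_mem (p := fun a (b : ℕ × Bool) => b.1 < m a) hw
    (ltp (Primrec.fst.comp Primrec.snd) (hm.comp Primrec.fst))

theorem takep {β : Type v} [Primcodable β] {f : α → List β} {i : α → ℕ} (hf : Primrec f)
    (hi : Primrec i) : Primrec fun a => (f a).take (i a) :=
  Primrec.list_take.comp hi hf

theorem dropp {β : Type v} [Primcodable β] {f : α → List β} {i : α → ℕ} (hf : Primrec f)
    (hi : Primrec i) : Primrec fun a => (f a).drop (i a) :=
  Primrec.list_drop.comp hi hf

theorem StpCp {m : α → ℕ} {R : α → List WC} {w w' : α → WC} (hm : Primrec m) (hR : Primrec R)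
    (hw : Primrec w) (hw' : Primrec w') : PrimrecPred fun a => StpC (m a) (R a) (w a) (w' a) := by
  refine ex_lt (p := fun a i => (∃ r ∈ R a, w' a = (w a).take i ++ (r ++ (w a).drop i)) ∨
    ∃ q < m a, w' a = (w a).take i ++ ([(q, true), (q, false)] ++ (w a).drop i) ∨
      w' a = (w a).take i ++ ([(q, false), (q, true)] ++ (w a).drop i))
    (Primrec.succ.comp (Primrec.list_length.comp hw)) (PrimrecPred.or ?_ ?_)
  · refine ex_mem (f := fun q : α × ℕ => R q.1)
      (p := fun q r => w' q.1 = (w q.1).take q.2 ++ (r ++ (w q.1).drop q.2))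
      (hR.comp Primrec.fst) ?_
    have h1 : Primrec fun p : (α × ℕ) × WC => w p.1.1 := hw.comp (Primrec.fst.comp Primrec.fst)
    have h2 : Primrec fun p : (α × ℕ) × WC => w' p.1.1 := hw'.comp (Primrec.fst.comp Primrec.fst)
    have h3 : Primrec fun p : (α × ℕ) × WC => p.1.2 := Primrec.snd.comp Primrec.fst
    exact eqp h2 (appp (takep h1 h3) (appp Primrec.snd (dropp h1 h3)))
  · refine ex_lt (f := fun q : α × ℕ => m q.1)
      (p := fun a q => w' a.1 = (w a.1).take a.2 ++ ([(q, true), (q, false)] ++ (w a.1).drop a.2) ∨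
      w' a.1 = (w a.1).take a.2 ++ ([(q, false), (q, true)] ++ (w a.1).drop a.2))
      (hm.comp Primrec.fst) ?_
    have h1 : Primrec fun p : (α × ℕ) × ℕ => w p.1.1 := hw.comp (Primrec.fst.comp Primrec.fst)
    have h2 : Primrec fun p : (α × ℕ) × ℕ => w' p.1.1 := hw'.comp (Primrec.fst.comp Primrec.fst)
    have h3 : Primrec fun p : (α × ℕ) × ℕ => p.1.2 := Primrec.snd.comp Primrec.fst
    have h4 : ∀ b c : Bool, Primrec fun p : (α × ℕ) × ℕ => ([(p.2, b), (p.2, c)] : WC) :=
      fun b c => Primrec.list_cons.comp (Primrec.snd.pair (Primrec.const b))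
        (Primrec.list_cons.comp (Primrec.snd.pair (Primrec.const c)) (Primrec.const []))
    exact (eqp h2 (appp (takep h1 h3) (appp (h4 true false) (dropp h1 h3)))).or
      (eqp h2 (appp (takep h1 h3) (appp (h4 false true) (dropp h1 h3))))

theorem ChainCp {m : α → ℕ} {R : α → List WC} {c : α → List WC} {w w' : α → WC}
    (hm : Primrec m) (hR : Primrec R) (hc : Primrec c)
    (hw : Primrec w) (hw' : Primrec w') :
    PrimrecPred fun a => ChainC (m a) (R a) (c a) (w a) (w' a) := by
  have hl : Primrec fun a => (c a).length - 1 :=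
    Primrec.nat_sub.comp (Primrec.list_length.comp hc) (Primrec.const 1)
  refine (PrimrecPred.not (eqp hc (Primrec.const []))).and ((eqp (getDp [] hc (Primrec.const 0)) hw).and
    ((eqp (getDp [] hc hl) hw').and ((all_mem (p := fun a w => OkC (m a) w) hc
      (OkCp (hm.comp Primrec.fst) Primrec.snd)).and
      (all_lt (p := fun a i => StpC (m a) (R a) ((c a).getD i []) ((c a).getD (i + 1) []) ∨
      StpC (m a) (R a) ((c a).getD (i + 1) []) ((c a).getD i [])) hl ?_))))
  have h1 : Primrec fun q : α × ℕ => (c q.1).getD q.2 [] := getDp [] (hc.comp Primrec.fst) Primrec.snd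
  have h2 : Primrec fun q : α × ℕ => (c q.1).getD (q.2 + 1) [] :=
    getDp [] (hc.comp Primrec.fst) (Primrec.succ.comp Primrec.snd)
  exact (StpCp (hm.comp Primrec.fst) (hR.comp Primrec.fst) h1 h2).or
    (StpCp (hm.comp Primrec.fst) (hR.comp Primrec.fst) h2 h1)

theorem EqvCp {m : α → ℕ} {R : α → List WC} {K : α → List (List WC)} {w w' : α → WC}
    (hm : Primrec m) (hR : Primrec R) (hK : Primrec K)
    (hw : Primrec w) (hw' : Primrec w') :
    PrimrecPred fun a => EqvC (m a) (R a) (K a) (w a) (w' a) :=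
  ex_mem (p := fun a c => ChainC (m a) (R a) c (w a) (w' a)) hK
    (ChainCp (hm.comp Primrec.fst) (hR.comp Primrec.fst) Primrec.snd (hw.comp Primrec.fst)
      (hw'.comp Primrec.fst))

theorem mp {x : α → AC} (hx : Primrec x) : Primrec fun a => (x a).2.1.length :=
  Primrec.list_length.comp (Primrec.fst.comp (Primrec.snd.comp hx))

theorem trCp {x : α → AC} {q b : α → ℕ} (hx : Primrec x) (hq : Primrec q) (hb : Primrec b) :
    Primrec fun a => trC (x a) (q a) (b a) :=
  getDp 0 (getDp [] (Primrec.fst.comp (Primrec.snd.comp hx)) hq) hb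

theorem outCp {x : α → AC} {q b : α → ℕ} (hx : Primrec x) (hq : Primrec q) (hb : Primrec b) :
    Primrec fun a => outC (x a) (q a) (b a) :=
  getDp 0 (getDp [] (Primrec.snd.comp (Primrec.snd.comp hx)) hq) hb

theorem Chk1p {x : α → AC} {R : α → List WC} {k : α → ℕ} {B : α → Tab} {t : α → List ℕ}
    {l : α → List WC} (hx : Primrec x) (hR : Primrec R) (hk : Primrec k) (hB : Primrec B)
    (ht : Primrec t) (hl : Primrec l) :
    PrimrecPred fun a => Chk1 (x a) (R a) (k a) (B a) (t a) (l a) := by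
  have hm := mp hx
  refine (all_mem (p := fun a r => OkC (x a).2.1.length r) hR
    (OkCp (hm.comp Primrec.fst) Primrec.snd)).and (PrimrecPred.and ?_ ?_)
  · refine all_lt (p := fun a q => ((B a).1.getD q []).length = k a ∧
      (∀ z < k a, z ∈ (B a).1.getD q []) ∧
      ∀ z < k a, OkC (x a).2.1.length (((B a).2.getD q []).getD z [])) hm ?_
    have hB' : Primrec fun q : α × ℕ => B q.1 := hB.comp Primrec.fst
    have hk' : Primrec fun q : α × ℕ => k q.1 := hk.comp Primrec.fst
    have hm' : Primrec fun q : α × ℕ => (x q.1).2.1.length := hm.comp Primrec.fst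
    have h1 := outRow hB' Primrec.snd
    have h2 := secRow hB' Primrec.snd
    refine (eqp (Primrec.list_length.comp h1) hk').and (PrimrecPred.and ?_ ?_)
    · exact all_lt (p := fun (q : α × ℕ) z => z ∈ (B q.1).1.getD q.2 []) hk'
        (memp (h1.comp Primrec.fst) Primrec.snd)
    · exact all_lt (p := fun (q : α × ℕ) z => OkC (x q.1).2.1.length
        (((B q.1).2.getD q.2 []).getD z [])) hk'
        (OkCp (hm'.comp Primrec.fst) (getDp [] (h2.comp Primrec.fst) Primrec.snd))
  · refine all_lt (p := fun a b => (t a).getD b 0 < k a ∧ OkC (x a).2.1.length ((l a).getD b []))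
      (Primrec.fst.comp hx) ?_
    exact (ltp (getDp 0 (ht.comp Primrec.fst) Primrec.snd) (hk.comp Primrec.fst)).and
      (OkCp (hm.comp Primrec.fst) (getDp [] (hl.comp Primrec.fst) Primrec.snd))

theorem Chk2p {m : α → ℕ} {k : α → ℕ} {R : α → List WC} {K : α → List (List WC)}
    (hm : Primrec m) (hT : Primrec T) (hk : Primrec k) (hR : Primrec R) (hK : Primrec K) :
    PrimrecPred fun a => Chk2 (m a) (T a) (k a) (R a) (K a) := by
  refine all_mem (p := fun a r => ∀ z < k a, (runC (T a) r z).1 = z ∧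
    EqvC (m a) (R a) (K a) (runC (T a) r z).2 []) hR ?_
  refine all_lt (p := fun (q : α × WC) z => (runC (T q.1) q.2 z).1 = z ∧
    EqvC (m q.1) (R q.1) (K q.1) (runC (T q.1) q.2 z).2 []) (hk.comp Primrec.fst) ?_
  have h0 : Primrec fun p : (α × WC) × ℕ => p.1.1 := Primrec.fst.comp Primrec.fst
  have h1 : Primrec fun p : (α × WC) × ℕ => runC (T p.1.1) p.1.2 p.2 :=
    runCp (hT.comp h0) (Primrec.snd.comp Primrec.fst) Primrec.snd
  exact (eqp (Primrec.fst.comp h1) Primrec.snd).and
    (EqvCp (hm.comp h0) (hR.comp h0) (hK.comp h0) (Primrec.snd.comp h1) (Primrec.const []))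

theorem Chk3p {x : α → AC} {R : α → List WC} {B : α → Tab} {t : α → List ℕ}
    {l : α → List WC} {K : α → List (List WC)} (hx : Primrec x) (hR : Primrec R) (hB : Primrec B)
    (ht : Primrec t) (hl : Primrec l) (hK : Primrec K) :
    PrimrecPred fun a => Chk3 (x a) (R a) (B a) (t a) (l a) (K a) := by
  refine all_lt (p := fun a q => ∀ b < (x a).1,
    ltC (B a) (trC (x a) q b, true) ((t a).getD b 0) = (t a).getD (outC (x a) q b) 0 ∧
    EqvC (x a).2.1.length (R a) (K a) (scC (B a) (trC (x a) q b, true) ((t a).getD b 0) ++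
      (l a).getD b []) ((l a).getD (outC (x a) q b) [] ++ [(q, true)])) (mp hx) ?_
  refine all_lt (p := fun (a : α × ℕ) b =>
    ltC (B a.1) (trC (x a.1) a.2 b, true) ((t a.1).getD b 0) = (t a.1).getD (outC (x a.1) a.2 b) 0 ∧
    EqvC (x a.1).2.1.length (R a.1) (K a.1) (scC (B a.1) (trC (x a.1) a.2 b, true)
      ((t a.1).getD b 0) ++ (l a.1).getD b []) ((l a.1).getD (outC (x a.1) a.2 b) [] ++
      [(a.2, true)])) (Primrec.fst.comp (hx.comp Primrec.fst)) ?_
  have h0 : Primrec fun p : (α × ℕ) × ℕ => p.1.1 := Primrec.fst.comp Primrec.fst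
  have hq : Primrec fun p : (α × ℕ) × ℕ => p.1.2 := Primrec.snd.comp Primrec.fst
  have hb : Primrec fun p : (α × ℕ) × ℕ => p.2 := Primrec.snd
  have htr : Primrec fun p : (α × ℕ) × ℕ => ((trC (x p.1.1) p.1.2 p.2, true) : ℕ × Bool) :=
    (trCp (hx.comp h0) hq hb).pair (Primrec.const true)
  have hou : Primrec fun p : (α × ℕ) × ℕ => outC (x p.1.1) p.1.2 p.2 :=
    outCp (hx.comp h0) hq hb
  have ht1 : Primrec fun p : (α × ℕ) × ℕ => (t p.1.1).getD p.2 0 := getDp 0 (ht.comp h0) hb
  have ht2 : Primrec fun p : (α × ℕ) × ℕ => (t p.1.1).getD (outC (x p.1.1) p.1.2 p.2) 0 :=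
    getDp 0 (ht.comp h0) hou
  have hl1 : Primrec fun p : (α × ℕ) × ℕ => (l p.1.1).getD p.2 [] := getDp [] (hl.comp h0) hb
  have hl2 : Primrec fun p : (α × ℕ) × ℕ => (l p.1.1).getD (outC (x p.1.1) p.1.2 p.2) [] :=
    getDp [] (hl.comp h0) hou
  have hs : Primrec fun p : (α × ℕ) × ℕ => ([(p.1.2, true)] : WC) :=
    Primrec.list_cons.comp (hq.pair (Primrec.const true)) (Primrec.const [])
  exact (eqp (ltCp (hB.comp h0) htr ht1) ht2).and
    (EqvCp ((mp hx).comp h0) (hR.comp h0) (hK.comp h0) (appp (scCp (hB.comp h0) htr ht1) hl1)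
      (appp hl2 hs))

end Main

theorem pchk : Pool.Agent.Helper85.LN.S_PCHK := by
  have hx : Primrec fun p : AC × CC => p.1 := Primrec.fst
  have hR : Primrec fun p : AC × CC => p.2.1 := Primrec.fst.comp Primrec.snd
  have h2 : Primrec fun p : AC × CC => p.2.2 := Primrec.snd.comp Primrec.snd
  have hk : Primrec fun p : AC × CC => p.2.2.1 := Primrec.fst.comp h2
  have h3 : Primrec fun p : AC × CC => p.2.2.2 := Primrec.snd.comp h2
  have hB : Primrec fun p : AC × CC => p.2.2.2.1 := Primrec.fst.comp h3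
  have h4 : Primrec fun p : AC × CC => p.2.2.2.2 := Primrec.snd.comp h3
  have ht : Primrec fun p : AC × CC => p.2.2.2.2.1 := Primrec.fst.comp h4
  have h5 : Primrec fun p : AC × CC => p.2.2.2.2.2 := Primrec.snd.comp h4
  have hl : Primrec fun p : AC × CC => p.2.2.2.2.2.1 := Primrec.fst.comp h5
  have hK : Primrec fun p : AC × CC => p.2.2.2.2.2.2 := Primrec.snd.comp h5
  exact (Chk1p hx hR hk hB ht hl).and ((Chk2p (mp hx) (tabAp hx) (Primrec.fst.comp hx) hR hK).and
    ((Chk2p (mp hx) hB hk hR hK).and (Chk3p hx hR hB ht hl hK)))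

end Pool.Agent.Helper61.LN
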