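import Pool.Agent.Helper85.LN.Goals
import Pool.Agent.Helper43.Uct2.PZI
import Pool.Agent.Helper43.Uct2.HL
import Pool.Agent.Helper51.Uct2.NP

/-!
# VNFP: finitely generated virtually nilpotent groups are finitely presented (project LN)
-/

namespace Pool.Agent.Helper61.LN

open Monoid Monoid.Coprod

theorem fg_of_fp (N : Type*) [Group N] [h : Group.IsFinitelyPresented N] : Group.FG N := by
  obtain ⟨n, φ, hφ, _⟩ := h.out
  exact Group.fg_of_surjective hφ

/-- Extensions of finitely presented groups by finitely presented groups. -/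
theorem ext_fp {G H : Type*} [Group G] [Group H] (f : G →* H) (hf : Function.Surjective f)
    (hN : Group.IsFinitelyPresented f.ker) (hH : Group.IsFinitelyPresented H) :
    Group.IsFinitelyPresented G := by
  classical
  obtain ⟨n, φ, hφ, S, hSf, hS⟩ := hH.out
  have hNfg : Group.FG f.ker := fg_of_fp f.ker
  obtain ⟨X, hX, hXf⟩ := Group.fg_iff.1 hNfg
  -- a lift of `φ`
  have hy : ∀ i, ∃ g, f g = φ (FreeGroup.of i) := fun i => hf _
  choose y hy using hy
  let ψ : FreeGroup (Fin n) →* G := FreeGroup.lift y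
  have hψ : ∀ w, f (ψ w) = φ w := by
    intro w
    have : f.comp ψ = φ := by
      apply FreeGroup.ext_hom
      intro i
      simp [ψ, hy]
    rw [← this]; rfl
  let Θ : Coprod f.ker (FreeGroup (Fin n)) →* G := Coprod.lift f.ker.subtype ψ
  have hΘ : Function.Surjective Θ := by
    intro g
    obtain ⟨w, hw⟩ := hφ (f g)
    have h1 : g * (ψ w)⁻¹ ∈ f.ker := by
      rw [MonoidHom.mem_ker, map_mul, map_inv, hψ, hw, mul_inv_cancel]
    refine ⟨inl ⟨_, h1⟩ * inr w, ?_⟩
    simp [Θ]
  -- conjugation
  have hcj : ∀ (g : G) (m : f.ker), g * m * g⁻¹ ∈ f.ker := fun g m =>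
    (inferInstance : f.ker.Normal).conj_mem m m.2 g
  let T1 : Set (Coprod f.ker (FreeGroup (Fin n))) :=
    (fun p : (Fin n × Bool) × f.ker =>
      inr ((FreeGroup.mk [p.1])) * inl p.2 * (inr (FreeGroup.mk [p.1]))⁻¹ *
        (inl (⟨_, hcj (ψ (FreeGroup.mk [p.1])) p.2⟩ : f.ker))⁻¹) '' (Set.univ ×ˢ X)
  let c2 : FreeGroup (Fin n) → Coprod f.ker (FreeGroup (Fin n)) := fun s =>
    if h : ψ s ∈ f.ker then inr s * (inl (⟨_, h⟩ : f.ker))⁻¹ else 1
  let R : Subgroup (Coprod f.ker (FreeGroup (Fin n))) := Subgroup.normalClosure (T1 ∪ c2 '' S)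
  have hR1 : R ≤ Θ.ker := by
    apply Subgroup.normalClosure_le_normal
    rintro _ (⟨⟨p, x⟩, _, rfl⟩ | ⟨s, _, rfl⟩)
    · change _ ∈ Θ.ker
      rw [MonoidHom.mem_ker]
      simp only [map_mul, map_inv]
      simp [Θ]
    · change _ ∈ Θ.ker
      rw [MonoidHom.mem_ker]
      simp only [c2]
      split_ifs with h
      · simp [Θ]
      · simp
  have hRn : R.Normal := Subgroup.normalClosure_normal
  let M : Subgroup (Coprod f.ker (FreeGroup (Fin n))) := R ⊔ (inl : f.ker →* _).range
  have hRM : R ≤ M := le_sup_left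
  have hinl : ∀ x : f.ker, (inl x : Coprod f.ker (FreeGroup (Fin n))) ∈ M := fun x =>
    Subgroup.mem_sup_right ⟨x, rfl⟩
  -- conjugation by generators
  have hgen : ∀ p : Fin n × Bool, ∀ m ∈ M,
      inr (FreeGroup.mk [p]) * m * (inr (FreeGroup.mk [p]))⁻¹ ∈ M := by
    intro p
    have key : M ≤ M.comap (MulAut.conj (inr (FreeGroup.mk [p]) :
        Coprod f.ker (FreeGroup (Fin n)))).toMonoidHom := by
      apply sup_le
      · intro r hr
        exact hRM (hRn.conj_mem r hr _)
      · rw [MonoidHom.range_eq_map, ← hX, MonoidHom.map_closure, Subgroup.closure_le]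
        rintro _ ⟨x, hx, rfl⟩
        have h1 : inr ((FreeGroup.mk [p])) * inl x * (inr (FreeGroup.mk [p]))⁻¹ *
          (inl (⟨_, hcj (ψ (FreeGroup.mk [p])) x⟩ : f.ker))⁻¹ ∈ M :=
          hRM (Subgroup.subset_normalClosure (Or.inl ⟨(p, x), ⟨Set.mem_univ _, hx⟩, rfl⟩))
        have h2 := M.mul_mem h1 (hinl ⟨_, hcj (ψ (FreeGroup.mk [p])) x⟩)
        rw [inv_mul_cancel_right] at h2
        exact h2
    intro m hm
    exact key hm
  have hconj : ∀ w : FreeGroup (Fin n), ∀ m ∈ M, inr w * m * (inr w)⁻¹ ∈ M := by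
    intro w
    induction w using FreeGroup.induction_on with
    | C1 => intro m hm; simpa using hm
    | of i => exact hgen (i, true)
    | inv_of i _ => 
      intro m hm
      have := hgen (i, false) m hm
      exact this
    | mul u v hu hv =>
      intro m hm
      have := hu _ (hv m hm)
      rw [map_mul]
      convert this using 1
      group
  have hMn : M.Normal := by
    constructor
    intro m hm g
    have key : ∀ g : Coprod f.ker (FreeGroup (Fin n)), ∀ m ∈ M, g * m * g⁻¹ ∈ M := by
      intro g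
      induction g using Coprod.induction_on with
      | inl x => intro m hm; exact M.mul_mem (M.mul_mem (hinl x) hm) (M.inv_mem (hinl x))
      | inr w => exact hconj w
      | mul u v hu hv =>
        intro m hm
        have := hu _ (hv m hm)
        convert this using 1
        group
    exact key g m hm
  have htop : ∀ u : Coprod f.ker (FreeGroup (Fin n)), ∃ m ∈ M, ∃ w, u = m * inr w := by
    intro u
    induction u using Coprod.induction_on with
    | inl x => exact ⟨inl x, hinl x, 1, by simp⟩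
    | inr w => exact ⟨1, M.one_mem, w, by simp⟩
    | mul u v hu hv =>
      obtain ⟨m, hm, w, rfl⟩ := hu
      obtain ⟨m', hm', w', rfl⟩ := hv
      refine ⟨m * (inr w * m' * (inr w)⁻¹), M.mul_mem hm (hconj w m' hm'), w * w', ?_⟩
      rw [map_mul]
      group
  have hSM : ∀ w ∈ φ.ker, inr w ∈ M := by
    have : φ.ker ≤ M.comap (inr : FreeGroup (Fin n) →* Coprod f.ker (FreeGroup (Fin n))) := by
      rw [← hS]
      have : (M.comap (inr : FreeGroup (Fin n) →* Coprod f.ker (FreeGroup (Fin n)))).Normal :=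
        inferInstance
      apply Subgroup.normalClosure_le_normal
      intro s hs
      have h0 : ψ s ∈ f.ker := by
        rw [MonoidHom.mem_ker, hψ, ← MonoidHom.mem_ker, ← hS]
        exact Subgroup.subset_normalClosure hs
      have h1 : c2 s ∈ M := hRM (Subgroup.subset_normalClosure (Or.inr ⟨s, hs, rfl⟩))
      simp only [c2, dif_pos h0] at h1
      have h2 := M.mul_mem h1 (hinl ⟨_, h0⟩)
      rw [inv_mul_cancel_right] at h2
      exact h2
    exact this
  have hker : R = Θ.ker := by
    apply le_antisymm hR1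
    intro u hu
    rw [MonoidHom.mem_ker] at hu
    obtain ⟨m, hm, w, rfl⟩ := htop u
    obtain ⟨r, hr, x, hx, rfl⟩ := Subgroup.mem_sup_of_normal_left.1 hm
    obtain ⟨x, rfl⟩ := hx
    have hr1 : Θ r = 1 := hR1 hr
    have h1 : Θ (inr w) ∈ f.ker := by
      have : Θ (inr w) = (x : G)⁻¹ := by
        rw [map_mul, map_mul, hr1, one_mul] at hu
        have : Θ (inl x) = x := by simp [Θ]
        rw [this] at hu
        exact (inv_eq_of_mul_eq_one_right hu).symm
      rw [this]
      exact f.ker.inv_mem x.2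
    have h2 : w ∈ φ.ker := by
      have : Θ (inr w) = ψ w := by simp [Θ]
      rw [this, MonoidHom.mem_ker, hψ] at h1
      exact h1
    have h3 : r * inl x * inr w ∈ M := M.mul_mem hm (hSM w h2)
    obtain ⟨r', hr', x', hx', he⟩ := Subgroup.mem_sup_of_normal_left.1 h3
    obtain ⟨x', rfl⟩ := hx'
    rw [← he] at hu ⊢
    have hr1' : Θ r' = 1 := hR1 hr'
    rw [map_mul, hr1', one_mul] at hu
    have : Θ (inl x') = x' := by simp [Θ]
    rw [this] at hu
    have hx1 : x' = 1 := Subtype.ext hu
    rw [hx1, map_one, mul_one]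
    exact hr'
  refine Group.IsFinitelyPresented.of_surjective Θ hΘ ⟨T1 ∪ c2 '' S, ?_, hker⟩
  exact ((Set.finite_univ.prod hXf).image _).union (hSf.image _)

theorem fp_of_PZ (Q : Type) [Group Q] (h : Pool.Agent.Helper39.Uct.PZ Q) :
    Group.IsFinitelyPresented Q := by
  refine Pool.Agent.Helper43.Uct2.pzi Pool.Agent.Helper43.Uct2.hl
    (fun Q _ => Group.IsFinitelyPresented Q) ?_ ?_ Q h
  · intro Q Q' _ _ e hQ
    exact Group.IsFinitelyPresented.equiv e
  · intro Q _ hPZ _ h2
    have e : Q ≃* ((⊤ : Subgroup Q) ⧸ (⊥ : Subgroup (⊤ : Subgroup Q))) :=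
      (Subgroup.topEquiv.symm).trans QuotientGroup.quotientBot.symm
    rcases hPZ.2 ⊤ ⊥ with h | ⟨f, hf⟩
    · have : Finite Q := Finite.of_equiv _ e.symm.toEquiv
      infer_instance
    · exact ext_fp (f.comp e.toMonoidHom) (hf.comp e.surjective)
        (h2 _ (hf.comp e.surjective)) inferInstance

theorem vnfp : Pool.Agent.Helper85.LN.S_VNFP := by
  intro G _ hG hvn
  obtain ⟨H, hHf, hHn⟩ := hvn
  have h1 : Group.FG H.normalCore := inferInstance
  have h2 : Group.IsNilpotent H.normalCore := by
    have := hHn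
    have h6 : Group.IsNilpotent (H.normalCore.subgroupOf H) := inferInstance
    exact (Group.isNilpotent_congr (Subgroup.subgroupOfEquivOfLe H.normalCore_le)).1 h6
  have h3 : Group.IsFinitelyPresented H.normalCore :=
    fp_of_PZ _ (Pool.Agent.Helper51.Uct2.t_NP _ h2 h1)
  have h4 : Finite (G ⧸ H.normalCore) := inferInstance
  have h5 : Group.IsFinitelyPresented (QuotientGroup.mk' H.normalCore).ker :=
    Group.IsFinitelyPresented.equiv
      (MulEquiv.subgroupCongr (QuotientGroup.ker_mk' H.normalCore).symm)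
  exact ext_fp (QuotientGroup.mk' H.normalCore) (QuotientGroup.mk'_surjective _) h5 inferInstance

end Pool.Agent.Helper61.LN
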