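import Pool.Agent.Helper61.LN.Base

/-!
# PROJECT LN (MP_c65973_gt): goals
-/

set_option autoImplicit false

namespace Pool.Agent.Helper61.LN

open Pool.Agent.Helper31.Sk Pool.Agent.Helper35.Skl

universe u

/-! ### connected sums -/

/-- a tangle commutes with a piece to the right of it -/
def S_ICR : Prop := ∀ (m n : ℕ) (t : Word), Legal m t n → ∀ (q r : ℕ) (g : Gen),
  Iso (m + q + g.src + r) (n + q + g.tgt + r) (t ++ [(n + q, g)]) ((m + q, g) :: t)

/-- a tangle commutes with a piece to the left of it -/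
def S_ICL : Prop := ∀ (m n : ℕ) (t : Word), Legal m t n → ∀ (p q r : ℕ) (g : Gen),
  Iso (p + g.src + q + m + r) (p + g.tgt + q + n + r) (shift (p + g.src + q) t ++ [(p, g)])
    ((p, g) :: shift (p + g.tgt + q) t)

/-- a 1-1-tangle slides over and under another strand -/
def S_SLX : Prop := ∀ (T : Word), Legal 1 T 1 → ∀ (g : Gen), g = .pos ∨ g = .neg →
  Iso 2 2 (T ++ [(0, g)]) ((0, g) :: shift 1 T) ∧ Iso 2 2 (shift 1 T ++ [(0, g)]) ((0, g) :: T)

/-- the torus knots of type (2, 3) and (2, 5) -/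
def S_GOOD : Prop := Good (TT 3) ∧ Good (TT 5)

/-- `P`, `P'` are subsets of the `n` strands below the piece `(i, g)` and of the strands above it,
which are compatible with the piece. -/
def CompatP (n i : ℕ) (g : Gen) (P P' : ℕ → Prop) : Prop :=
  (∀ j < i, (P j ↔ P' j)) ∧
  (∀ j, i + g.src ≤ j → j < n → (P j ↔ P' (j - g.src + g.tgt))) ∧
  (g = .cup → (P' i ↔ P' (i + 1))) ∧
  (g = .cap → (P i ↔ P (i + 1))) ∧
  (g = .pos ∨ g = .neg → (P i ↔ P' (i + 1)) ∧ (P (i + 1) ↔ P' i))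

/-- a knot is connected -/
def S_PAT : Prop := ∀ (w : Word) (Q : ℕ → ℕ → Prop), IsKnot w →
  (∀ (u v : Word) (i n : ℕ) (g : Gen), w = u ++ (i, g) :: v → Legal 0 u n →
    CompatP n i g (Q u.length) (Q (u.length + 1))) →
  ∀ (u v u' v' : Word) (n n' i i' : ℕ), w = u ++ v → w = u' ++ v' → Legal 0 u n → Legal 0 u' n' →
    i < n → i' < n' → (Q u.length i ↔ Q u'.length i')

/-- the sliding lemma -/
def S_SLIDE : Prop := ∀ (T : Word), Good T → ∀ (u v : Word) (l i : ℕ), IsKnot (u ++ v) →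
  Legal 0 u l → i < l → Iso 0 0 (con T (u ++ v)) (u ++ shift i T ++ v)

/-- the connected sum respects isotopies -/
def S_CONISO : Prop := ∀ (T : Word), Good T → ∀ (w w' : Word), IsKnot w → Iso 0 0 w w' →
  Iso 0 0 (con T w) (con T w')

/-! ### the module of the classes -/

/-- the classes of the equivalence relation are the cosets of the relations -/
def S_QUOT : Prop := ∀ (A : Type u) [Ring A] (M : MovesU A) (N : MovesD A) (x y : KLin A),
  Relation.EqvGen (OneMove M N) x y ↔ x - y ∈ RelK M N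

/-- the connected sum with `T` is a linear map of the module of the classes -/
def S_TAU : Prop := ∀ (A : Type u) [Ring A] (M : MovesU A) (N : MovesD A), TanglesU M → TanglesD N →
  ∀ (T : Word) (hT : Good T), ∃ τ : (KLin A ⧸ RelK M N) →ₗ[A] (KLin A ⧸ RelK M N),
    ∀ w : Kn, τ (skn M N w) = skn M N ⟨con T w.1, hT.knot w.1 w.2⟩

/-! ### algebra -/

def S_ALG1 : Prop := ∀ (P : Type u) [AddCommGroup P] (τ : P →+ P) (e z : P),
  (∀ p : P, (∃ n : ℕ, p = τ^[n] e) ∨ p = z) → (Set.range (fun n : ℕ => τ^[n] e)).Infinite → False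

def S_ALG2 : Prop := ∀ (P : Type u) [AddCommGroup P] (τ3 τ5 : P →+ P) (x : ℕ → P) (z1 z2 : P),
  (∀ p : P, (∃ m : ℕ, (m = 0 ∨ 3 ≤ m) ∧ p = x m) ∨ p = z1 ∨ p = z2) →
  (∀ m m' : ℕ, (m = 0 ∨ 3 ≤ m) → (m' = 0 ∨ 3 ≤ m') → x m = x m' → m = m') →
  (∀ m : ℕ, (m = 0 ∨ 3 ≤ m) → τ3 (x m) = x (m + 3)) →
  (∀ m : ℕ, (m = 0 ∨ 3 ≤ m) → τ5 (x m) = x (m + 5)) → False

/-! ### crossing numbers -/

/-- crossing numbers of connected sums with the torus knots of type (2, 3) and (2, 5) -/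
def S_CR : Prop := ∃ K : ℕ → Word, ∀ m : ℕ, (m = 0 ∨ 3 ≤ m) → IsKnot (K m) ∧ cr (K m) = m ∧
  cr (con (TT 3) (K m)) = m + 3 ∧ cr (con (TT 5) (K m)) = m + 5

/-! ### colourings -/

section
variable {X : Type} [AddCommGroup X] [Fintype X] [DecidableEq X]

/-- insertion of two labels -/
def insF (i : ℕ) (a b : X) (x : ℕ → X) : ℕ → X :=
  fun j => if j < i then x j else if j = i then a else if j = i + 1 then b else x (j - 2)

/-- removal of two labels -/
def delF (i : ℕ) (x : ℕ → X) : ℕ → X := fun j => if j < i then x j else x (j + 2)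

/-- change of two labels -/
def setF (i : ℕ) (a b : X) (x : ℕ → X) : ℕ → X :=
  fun j => if j = i then a else if j = i + 1 then b else x j

/-- the dihedral colouring functor on one piece; `x` are the labels below the piece -/
def op (i : ℕ) : Gen → ((ℕ → X) → ℕ) → (ℕ → X) → ℕ
  | .cup, φ, x => ∑ c : X, φ (insF i c c x)
  | .cap, φ, x => if x i = x (i + 1) then φ (delF i x) else 0
  | .pos, φ, x => φ (setF i (x i + x i - x (i + 1)) (x i) x)
  | .neg, φ, x => φ (setF i (x (i + 1)) (x (i + 1) + x (i + 1) - x i) x)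

/-- the dihedral colouring functor -/
def ev : Word → ((ℕ → X) → ℕ) → (ℕ → X) → ℕ
  | [], φ => φ
  | (i, g) :: w, φ => op i g (ev w φ)

theorem ev_append (u v : Word) (φ : (ℕ → X) → ℕ) : ev (u ++ v) φ = ev u (ev v φ) := by
  induction u with
  | nil => rfl
  | cons s u ih =>
    obtain ⟨i, g⟩ := s
    simp only [List.cons_append, ev, ih]

end

/-- colourings with three colours, the labels at the bottom are `x` -/
def e3 (w : Word) (x : ℕ → ZMod 3) : ℕ := ev w (fun _ => 1) x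

/-- colourings with two colours (a crossing exchanges the two labels), the labels at the bottom are
`x` -/
def e2 (w : Word) (x : ℕ → ZMod 2) : ℕ := ev w (fun _ => 1) x

/-- invariance -/
def S_INV : Prop := ∀ (q : ℕ) [NeZero q] (m n : ℕ) (w w' : Word), Iso m n w w' →
  ∀ (φ : (ℕ → ZMod q) → ℕ) (x : ℕ → ZMod q), ev w φ x = ev w' φ x

/-- a multiple of the indicator function of a subgroup -/
def SubInd (q : ℕ) (φ : (ℕ → ZMod q) → ZMod q → ℕ) : Prop :=
  ∃ (κ : ℕ) (U : AddSubgroup ((ℕ → ZMod q) × ZMod q)),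
    (∀ x c, (x, c) ∈ U → φ x c = κ) ∧ (∀ x c, (x, c) ∉ U → φ x c = 0)

def S_SUB : Prop := ∀ (q : ℕ) [NeZero q] (w : Word) (φ : (ℕ → ZMod q) → ZMod q → ℕ), SubInd q φ →
  SubInd q (fun x c => ev w (fun y => φ y c) x)

/-- crossing changes -/
def S_CHG : Prop := ∀ (w w' : Word) (k : ℕ), Changes w w' k → e3 w 0 ≤ 3 ^ k * e3 w' 0

/-- colourings and the unknotting number -/
def S_UNL : Prop := ∀ (w : Word) (j : ℕ), un w = j → e3 w 0 ≤ 3 ^ (j + 1)

def S_TT3 : Prop := ∀ (φ : (ℕ → ZMod 3) → ℕ) (x : ℕ → ZMod 3), ev (TT 3) φ x = 3 * φ x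

def S_UNU : Prop := ∀ n : ℕ, un ((con (TT 3))^[n] unknot) ≤ n

def S_KP : Prop := ∀ w : Word, IsKnot w → e2 w 0 ≤ 2

/-- colourings of bands whose cores have no closed components -/
def S_K1 : Prop := ∀ t : Word, e2 t 0 ≤ 1 → e3 (dbl t) 0 ≤ 1

def S_DB2 : Prop := ∀ (t : Word) (s : ℕ → ZMod 2), e2 t s ≤ e2 (dbl t) (fun j => s (j / 2))

def S_ONE : Prop := ∀ (m : ℕ) (v : Word), Legal m v 0 → 1 ≤ e2 v (fun j => if j < m then 1 else 0)

/-- colourings and the genus -/
def S_GEL : Prop := ∀ (w : Word) (h : ℕ), IsKnot w → ge w = h → e3 w 0 ≤ 3 ^ (4 * h + 1)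

/-! ### the genus of a connected sum with the trefoil knot -/

/-- the cores of the two bands of a surface of the trefoil knot -/
def t0 : Word := [(1, .cup), (0, .pos), (1, .cap), (4, .cup), (3, .pos), (4, .cap), (1, .pos),
  (0, .cap), (0, .cap)]

/-- the trefoil knot as the boundary of two bands (a 1-1-tangle) -/
def T2 : Word := [(1, .cup), (1, .cup), (1, .cup), (1, .cup)] ++ dbl t0

def S_T2 : Prop := Iso 1 1 T2 (TT 3)

def S_SRF : Prop := ∀ (h : ℕ) (t : Word), Legal (4 * h) t 0 → ∃ t' : Word,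
  Legal (4 * (h + 1)) t' 0 ∧ Iso 0 0 (con T2 (surf h t)) (surf (h + 1) t')

def S_GES : Prop := ∀ w : Word, IsKnot w → ge (con (TT 3) w) ≤ ge w + 1

end Pool.Agent.Helper61.LN
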