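import Pool.Agent.Helper61.LN.Goals

/-! PROJECT LN, packet DB2: doubling of patterns, the full pattern. -/

set_option autoImplicit false

namespace Pool.Agent.Helper61.LN.DB2

open Pool.Agent.Helper31.Sk Pool.Agent.Helper35.Skl Pool.Agent.Helper61.LN

/-- the doubled pattern -/
def db (s : ℕ → ZMod 2) : ℕ → ZMod 2 := fun j => s (j / 2)

theorem two_sub (a b : ZMod 2) : a + a - b = b := by
  revert a b; decide

theorem ins_db (i : ℕ) (c : ZMod 2) (s : ℕ → ZMod 2) :
    insF (2 * i + 1) c c (insF (2 * i) c c (db s)) = db (insF i c c s) := by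
  funext j
  simp only [insF, db]
  by_cases h1 : j < 2 * i
  · have e1 : j < 2 * i + 1 := by omega
    have e2 : j / 2 < i := by omega
    simp [h1, e1, e2]
  · by_cases h2 : j < 2 * i + 4
    · have e2 : ¬ j / 2 < i := by omega
      have e3 : j / 2 = i ∨ j / 2 = i + 1 := by omega
      have r : (if j / 2 < i then s (j / 2) else if j / 2 = i then c
          else if j / 2 = i + 1 then c else s (j / 2 - 2)) = c := by
        rw [if_neg e2]
        split_ifs <;> first | rfl | omega
      rw [r]
      have h3 : j = 2 * i ∨ j = 2 * i + 1 ∨ j = 2 * i + 2 ∨ j = 2 * i + 3 := by omega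
      rcases h3 with rfl | rfl | rfl | rfl
      · simp
      · simp
      · simp
      · have a1 : ¬ 2 * i + 3 < 2 * i + 1 := by omega
        have a2 : ¬ 2 * i + 3 = 2 * i + 1 := by omega
        have a3 : ¬ 2 * i + 3 = 2 * i + 1 + 1 := by omega
        have a4 : 2 * i + 3 - 2 = 2 * i + 1 := by omega
        simp [a1, a2, a4]
    · have a1 : ¬ j < 2 * i + 1 := by omega
      have a2 : ¬ j = 2 * i + 1 := by omega
      have a3 : ¬ j = 2 * i + 1 + 1 := by omega
      have b1 : ¬ j - 2 < 2 * i := by omega
      have b2 : ¬ j - 2 = 2 * i := by omega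
      have b3 : ¬ j - 2 = 2 * i + 1 := by omega
      have c1 : ¬ j / 2 < i := by omega
      have c2 : ¬ j / 2 = i := by omega
      have c3 : ¬ j / 2 = i + 1 := by omega
      have c4 : (j - 2 - 2) / 2 = j / 2 - 2 := by omega
      simp only [a1, a2, a3, b1, b2, b3, c1, c2, c3, c4, if_false]

theorem del_db (i : ℕ) (s : ℕ → ZMod 2) :
    delF (2 * i) (delF (2 * i + 1) (db s)) = db (delF i s) := by
  funext j
  simp only [delF, db]
  by_cases h1 : j < 2 * i
  · have e1 : j < 2 * i + 1 := by omega
    have e2 : j / 2 < i := by omega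
    simp [h1, e1, e2]
  · have e1 : ¬ j + 2 < 2 * i + 1 := by omega
    have e2 : ¬ j / 2 < i := by omega
    have e3 : (j + 2 + 2) / 2 = j / 2 + 2 := by omega
    simp only [h1, e1, e2, e3, if_false]

/-- exchange of two labels -/
def sw (i : ℕ) (x : ℕ → ZMod 2) : ℕ → ZMod 2 := setF i (x (i + 1)) (x i) x

theorem op_cross (i : ℕ) (g : Gen) (hg : g = .pos ∨ g = .neg) (φ : (ℕ → ZMod 2) → ℕ)
    (x : ℕ → ZMod 2) : op i g φ x = φ (sw i x) := by
  rcases hg with rfl | rfl
  · simp only [op, sw, two_sub]
  · simp only [op, sw, two_sub]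

theorem sw_db (i : ℕ) (s : ℕ → ZMod 2) :
    sw (2 * i + 1) (sw (2 * i + 2) (sw (2 * i) (sw (2 * i + 1) (db s)))) = db (sw i s) := by
  funext j
  by_cases h1 : j < 2 * i
  · have e0 : ¬ j = 2 * i := by omega
    have e1 : ¬ j = 2 * i + 1 := by omega
    have e2 : ¬ j = 2 * i + 2 := by omega
    have e3 : ¬ j = 2 * i + 3 := by omega
    have e4 : ¬ j / 2 = i := by omega
    have e5 : ¬ j / 2 = i + 1 := by omega
    simp [sw, setF, db, e0, e1, e2, e3, e4, e5]
  · by_cases h2 : j < 2 * i + 4
    · have h3 : j = 2 * i ∨ j = 2 * i + 1 ∨ j = 2 * i + 2 ∨ j = 2 * i + 3 := by omega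
      have d0 : (2 * i) / 2 = i := by omega
      have d1 : (2 * i + 1) / 2 = i := by omega
      have d2 : (2 * i + 2) / 2 = i + 1 := by omega
      have d3 : (2 * i + 3) / 2 = i + 1 := by omega
      have n1 : ¬ 2 * i = 2 * i + 1 + 1 := by omega
      have n2 : ¬ 2 * i = 2 * i + 2 + 1 := by omega
      rcases h3 with rfl | rfl | rfl | rfl <;>
        simp [sw, setF, db, d0, d1, d2, d3, n1, n2]
    · have e0 : ¬ j = 2 * i := by omega
      have e1 : ¬ j = 2 * i + 1 := by omega
      have e2 : ¬ j = 2 * i + 2 := by omega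
      have e3 : ¬ j = 2 * i + 3 := by omega
      have e4 : ¬ j / 2 = i := by omega
      have e5 : ¬ j / 2 = i + 1 := by omega
      simp [sw, setF, db, e0, e1, e2, e3, e4, e5]

theorem t1 : S_DB2 := by
  intro t
  induction t with
  | nil => intro s; exact le_refl _
  | cons p t ih =>
    intro s
    obtain ⟨i, g⟩ := p
    show op i g (ev t fun _ => 1) s ≤ ev (dbl1 (i, g) ++ dbl t) (fun _ => 1) (db s)
    rw [ev_append]
    have ih' : ∀ s, ev t (fun _ => 1) s ≤ ev (dbl t) (fun _ => 1) (db s) := ih
    cases g with
    | cup =>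
      show ∑ c : ZMod 2, ev t (fun _ => 1) (insF i c c s) ≤
        ∑ a : ZMod 2, ∑ b : ZMod 2, ev (dbl t) (fun _ => 1)
          (insF (2 * i + 1) b b (insF (2 * i) a a (db s)))
      refine Finset.sum_le_sum fun c _ => ?_
      refine (ih' _).trans ?_
      rw [← ins_db]
      exact Finset.single_le_sum (f := fun b : ZMod 2 => ev (dbl t) (fun _ => 1)
          (insF (2 * i + 1) b b (insF (2 * i) c c (db s)))) (fun _ _ => Nat.zero_le _)
          (Finset.mem_univ c)
    | cap =>
      show (if s i = s (i + 1) then ev t (fun _ => 1) (delF i s) else 0) ≤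
        (if db s (2 * i + 1) = db s (2 * i + 1 + 1) then
          (if delF (2 * i + 1) (db s) (2 * i) = delF (2 * i + 1) (db s) (2 * i + 1) then
            ev (dbl t) (fun _ => 1) (delF (2 * i) (delF (2 * i + 1) (db s))) else 0) else 0)
      by_cases h : s i = s (i + 1)
      · have d0 : (2 * i) / 2 = i := by omega
        have d1 : (2 * i + 1) / 2 = i := by omega
        have d2 : (2 * i + 1 + 1) / 2 = i + 1 := by omega
        have d3 : (2 * i + 1 + 2) / 2 = i + 1 := by omega
        have h1 : db s (2 * i + 1) = db s (2 * i + 1 + 1) := by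
          simp only [db, d1, d2, h]
        have h2 : delF (2 * i + 1) (db s) (2 * i) = delF (2 * i + 1) (db s) (2 * i + 1) := by
          simp only [delF, db, lt_self_iff_false, if_false, d3]
          rw [if_pos (by omega), d0, h]
        rw [if_pos h, if_pos h1, if_pos h2, del_db]
        exact ih' _
      · rw [if_neg h]
        exact Nat.zero_le _
    | pos =>
      show op i .pos (ev t fun _ => 1) s ≤ op (2 * i + 1) .pos (op (2 * i) .pos
        (op (2 * i + 2) .pos (op (2 * i + 1) .pos (ev (dbl t) fun _ => 1)))) (db s)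
      simp only [op_cross _ .pos (Or.inl rfl)]
      rw [sw_db]
      exact ih' _
    | neg =>
      show op i .neg (ev t fun _ => 1) s ≤ op (2 * i + 1) .neg (op (2 * i) .neg
        (op (2 * i + 2) .neg (op (2 * i + 1) .neg (ev (dbl t) fun _ => 1)))) (db s)
      simp only [op_cross _ .neg (Or.inr rfl)]
      rw [sw_db]
      exact ih' _

/-- the full pattern on `m` strands -/
def ind (m : ℕ) : ℕ → ZMod 2 := fun j => if j < m then 1 else 0

theorem t2 : S_ONE := by
  intro m v
  induction v generalizing m with
  | nil => intro _; exact le_refl _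
  | cons p v ih =>
    intro h
    obtain ⟨i, g⟩ := p
    obtain ⟨h1, h2⟩ := h
    have ih' := ih _ h2
    show 1 ≤ op i g (ev v fun _ => 1) (ind m)
    cases g with
    | cup =>
      simp only [Gen.src] at h1
      have e : insF i 1 1 (ind m) = ind (m + 2) := by
        funext j
        simp only [insF, ind]
        split_ifs <;> first | rfl | omega
      refine ih'.trans ?_
      show ev v (fun _ => 1) (ind (m + 2)) ≤ ∑ c : ZMod 2, ev v (fun _ => 1) (insF i c c (ind m))
      rw [← e]
      exact Finset.single_le_sum (f := fun c : ZMod 2 => ev v (fun _ => 1)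
          (insF i c c (ind m))) (fun _ _ => Nat.zero_le _) (Finset.mem_univ 1)
    | cap =>
      simp only [Gen.src] at h1
      have e : delF i (ind m) = ind (m - 2) := by
        funext j
        simp only [delF, ind]
        split_ifs <;> first | rfl | omega
      have e2 : ind m i = ind m (i + 1) := by
        simp only [ind]
        rw [if_pos (by omega), if_pos (by omega)]
      show 1 ≤ if ind m i = ind m (i + 1) then ev v (fun _ => 1) (delF i (ind m)) else 0
      rw [if_pos e2, e]
      exact ih'
    | pos =>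
      simp only [Gen.src] at h1
      rw [op_cross i .pos (Or.inl rfl)]
      have e : sw i (ind m) = ind m := by
        funext j
        simp only [sw, setF, ind]
        split_ifs <;> first | rfl | omega
      rw [e]
      have e3 : m - Gen.pos.src + Gen.pos.tgt = m := by simp only [Gen.src, Gen.tgt]; omega
      rw [e3] at ih'
      exact ih'
    | neg =>
      simp only [Gen.src] at h1
      rw [op_cross i .neg (Or.inr rfl)]
      have e : sw i (ind m) = ind m := by
        funext j
        simp only [sw, setF, ind]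
        split_ifs <;> first | rfl | omega
      rw [e]
      have e3 : m - Gen.neg.src + Gen.neg.tgt = m := by simp only [Gen.src, Gen.tgt]; omega
      rw [e3] at ih'
      exact ih'

end Pool.Agent.Helper61.LN.DB2
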