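import Pool.Agent.Helper61.LN.Goals

/-! PROJECT LN, packet GES: the genus of a connected sum with the trefoil knot. -/

set_option autoImplicit false

namespace Pool.Agent.Helper61.LN.GES

open Pool.Agent.Helper31.Sk Pool.Agent.Helper35.Skl Pool.Agent.Helper61.LN

/-- replacing the inserted tangle by an isotopic one -/
theorem con_congr {T T' w : Word} (h : Iso 1 1 T T') (hT : Legal 1 T 1) (hw : Legal 0 w 0) :
    Iso 0 0 (con T w) (con T' w) := by
  rcases w with _ | ⟨s, w⟩
  · exact iso_refl _ _ _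
  · obtain ⟨w', e, h2⟩ := first_piece hw (by simp)
    rw [e]
    have h1 : Iso 2 2 T T' := by
      have := iso_sh 0 1 h
      simpa [sh_zero] using this
    have := iso_ctx (u := [(0, .cup)]) (k := 0) (v := w') (p := 0) h1
      ⟨by simp [Gen.src], by simp [Legal, Gen.src, Gen.tgt]⟩ h2
    simpa [con] using this

theorem t (h1 : S_GOOD) (h2 : S_CONISO) (h3 : S_T2) (h4 : S_SRF) : S_GES := by
  intro w hw
  by_cases ht : ge w = ⊤
  · rw [ht]
    simp
  · have hne : {k : ℕ∞ | ∃ (h : ℕ) (t : Word), k = h ∧ Legal (4 * h) t 0 ∧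
        Iso 0 0 w (surf h t)}.Nonempty := by
      by_contra hn
      rw [Set.not_nonempty_iff_eq_empty] at hn
      apply ht
      unfold ge
      rw [hn]
      exact sInf_empty
    obtain ⟨h, t, e, hl, hi⟩ := csInf_mem hne
    have e' : ge w = h := e
    obtain ⟨t', hl', hi'⟩ := h4 h t hl
    have k1 : Iso 0 0 (con (TT 3) w) (con (TT 3) (surf h t)) := h2 _ h1.1 _ _ hw hi
    have hs : Legal 0 (surf h t) 0 := (iso_legal hi).1 hw.1
    have k2 : Iso 0 0 (con (TT 3) (surf h t)) (con T2 (surf h t)) :=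
      con_congr (iso_symm h3) h1.1.legal hs
    rw [e']
    refine sInf_le ⟨h + 1, t', by push_cast; rfl, hl', ?_⟩
    exact iso_trans k1 (iso_trans k2 hi')

end Pool.Agent.Helper61.LN.GES
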