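import Pool.Agent.Helper61.LN.Defs
import Pool.Agent.Helper31.Sk.Isot
import Pool.Agent.Helper31.Sk.OrDefs

/-!
# PROJECT LN (MP_c65973_gt): basic facts
-/

set_option autoImplicit false

namespace Pool.Agent.Helper61.LN

open Pool.Agent.Helper31.Sk Pool.Agent.Helper35.Skl

theorem sh_append (a : ℕ) (u v : Word) : shift a (u ++ v) = shift a u ++ shift a v := by
  simp [shift]

theorem sh_cons (a i : ℕ) (g : Gen) (w : Word) :
    shift a ((i, g) :: w) = (i + a, g) :: shift a w := by
  simp [shift]

theorem sh_nil (a : ℕ) : shift a [] = [] := rfl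

theorem sh_zero (w : Word) : shift 0 w = w := by simp [shift]

theorem sh_sh (a b : ℕ) (w : Word) : shift a (shift b w) = shift (b + a) w := by
  simp [shift, List.map_map, Function.comp_def, add_assoc]

theorem leg_left (a : ℕ) (w : Word) : ∀ (m n : ℕ), Legal m w n →
    Legal (m + a) (shift a w) (n + a) := by
  induction w with
  | nil =>
    intro m n h
    simp only [Legal] at h
    subst h
    rfl
  | cons s w ih =>
    intro m n h
    obtain ⟨i, g⟩ := s
    obtain ⟨h1, h2⟩ := h
    rw [sh_cons]
    refine ⟨by omega, ?_⟩
    have e : m + a - g.src + g.tgt = (m - g.src + g.tgt) + a := by omega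
    rw [e]
    exact ih _ _ h2

theorem leg_right (w : Word) : ∀ (p q m : ℕ), Legal p w q → Legal (p + m) w (q + m) := by
  induction w with
  | nil =>
    intro p q m h
    simp only [Legal] at h
    subst h
    rfl
  | cons s w ih =>
    intro p q m h
    obtain ⟨i, g⟩ := s
    obtain ⟨h1, h2⟩ := h
    refine ⟨by omega, ?_⟩
    have e : p + m - g.src + g.tgt = (p - g.src + g.tgt) + m := by omega
    rw [e]
    exact ih _ _ _ h2

/-- a tangle with `a` strands to the left and `r` strands to the right of it -/
theorem leg_sh (a r : ℕ) {m n : ℕ} {w : Word} (h : Legal m w n) :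
    Legal (m + a + r) (shift a w) (n + a + r) :=
  leg_right _ _ _ _ (leg_left a w m n h)

theorem elem_sh {x y : Word} (h : Elem x y) (a : ℕ) : Elem (shift a x) (shift a y) := by
  rcases h with ⟨i, j, g, h⟩ | i | i | i | i | i | i | i | i | i | i | i | i | i | i
  · have := Elem.comm (i + a) j g h
    have e1 : i + a + g.tgt + j = i + g.tgt + j + a := by ring
    have e2 : i + a + g.src + j = i + g.src + j + a := by ring
    rw [e1, e2] at this
    exact this
  all_goals
    have e : i + 1 + a = (i + a) + 1 := by ring
  · simpa [shift, e] using Elem.zig (i + a)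
  · simpa [shift, e] using Elem.zag (i + a)
  · simpa [shift, e] using Elem.capP (i + a)
  · simpa [shift, e] using Elem.capN (i + a)
  · simpa [shift, e] using Elem.cupP (i + a)
  · simpa [shift, e] using Elem.cupN (i + a)
  · simpa [shift, e] using Elem.r1cupP (i + a)
  · simpa [shift, e] using Elem.r1cupN (i + a)
  · simpa [shift, e] using Elem.r1capP (i + a)
  · simpa [shift, e] using Elem.r1capN (i + a)
  · simpa [shift, e] using Elem.r2P (i + a)
  · simpa [shift, e] using Elem.r2N (i + a)
  · simpa [shift, e] using Elem.r3P (i + a)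
  · simpa [shift, e] using Elem.r3N (i + a)

/-- isotopies with `a` strands to the left and `r` strands to the right -/
theorem iso_sh (a r : ℕ) {m n : ℕ} {w w' : Word} (h : Iso m n w w') :
    Iso (m + a + r) (n + a + r) (shift a w) (shift a w') := by
  induction h with
  | rel w w' h =>
    obtain ⟨u, x, y, v, he, h1, h2⟩ := h
    refine Relation.EqvGen.rel _ _ ?_
    have l1 := leg_sh a r h1
    have l2 := leg_sh a r h2
    rw [sh_append, sh_append] at l1 l2 ⊢
    rw [sh_append, sh_append]
    exact Step.mk _ _ _ _ (elem_sh he a) l1 l2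
  | refl w => exact iso_refl _ _ _
  | symm w w' _ ih => exact iso_symm ih
  | trans w w' w'' _ _ ih1 ih2 => exact iso_trans ih1 ih2

/-- the number of strands at the top of a diagram (computable) -/
def lgt : ℕ → Word → Option ℕ
  | m, [] => some m
  | m, (i, g) :: w => if i + g.src ≤ m then lgt (m - g.src + g.tgt) w else none

theorem lgt_of {w : Word} : ∀ {m n : ℕ}, lgt m w = some n → Legal m w n := by
  induction w with
  | nil =>
    intro m n h
    simp only [lgt, Option.some.injEq] at h
    exact h
  | cons s w ih =>
    intro m n h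
    obtain ⟨i, g⟩ := s
    simp only [lgt] at h
    split_ifs at h with h1
    exact ⟨h1, ih h⟩

/-- one elementary isotopy of a concrete word, at the place number `p`:
`stq p (Or.inl (Elem.zig 1)) rfl rfl rfl` -/
theorem stq {m n : ℕ} (p : ℕ) {x y w w' : Word} (h : Elem x y ∨ Elem y x)
    (hw : w = w.take p ++ x ++ w.drop (p + x.length))
    (hw' : w' = w.take p ++ y ++ w.drop (p + x.length))
    (hl : (lgt m w, lgt m w') = (some n, some n)) : Iso m n w w' := by
  have l1 : Legal m w n := lgt_of (Prod.ext_iff.1 hl).1
  have l2 : Legal m w' n := lgt_of (Prod.ext_iff.1 hl).2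
  generalize w.take p = u at hw hw'
  generalize w.drop (p + x.length) = v at hw hw'
  subst hw hw'
  rcases h with h | h
  · exact Relation.EqvGen.rel _ _ (Step.mk u x y v h l1 l2)
  · exact iso_symm (Relation.EqvGen.rel _ _ (Step.mk u y x v h l2 l1))

/-- Insertion of the 1-1-tangle `T` after the first piece of a closed diagram (at the first strand). -/
def con (T : Word) : Word → Word
  | [] => []
  | s :: w => s :: (T ++ w)

/-- The partial closure of `n` negative crossings (a 1-1-tangle). -/
def TT (n : ℕ) : Word := (1, .cup) :: (List.replicate n (0, .neg) ++ [(1, .cap)])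

/-- The properties of a 1-1-tangle which are needed for the sliding along a knot. -/
structure Good (T : Word) : Prop where
  legal : Legal 1 T 1
  cup : Iso 0 2 ((0, .cup) :: T) ((0, .cup) :: shift 1 T)
  cap : Iso 2 0 (T ++ [(0, .cap)]) (shift 1 T ++ [(0, .cap)])
  knot : ∀ w, IsKnot w → IsKnot (con T w)
  dir : ∀ x : Bool, Dir [x] T [x]

/-- every piece of a legal closed word which is the first one is a cup at the place 0 -/
theorem first_piece {w : Word} {n : ℕ} (h : Legal 0 w n) (hn : w ≠ []) :
    ∃ w', w = (0, .cup) :: w' ∧ Legal 2 w' n := by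
  rcases w with _ | ⟨⟨i, g⟩, w'⟩
  · exact absurd rfl hn
  · obtain ⟨h1, h2⟩ := h
    cases g with
    | cup =>
      simp only [Gen.src] at h1
      have : i = 0 := by omega
      subst this
      exact ⟨w', rfl, h2⟩
    | cap => simp [Gen.src] at h1
    | pos => simp [Gen.src] at h1
    | neg => simp [Gen.src] at h1

theorem legal_con {T w : Word} (hT : Legal 1 T 1) (h : Legal 0 w 0) : Legal 0 (con T w) 0 := by
  rcases w with _ | ⟨s, w⟩
  · exact h
  · obtain ⟨w', e, h2⟩ := first_piece h (by simp)
    rw [e]
    have := leg_right T 1 1 1 hT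
    exact ⟨by simp [Gen.src], legal_append.2 ⟨2, this, h2⟩⟩

end Pool.Agent.Helper61.LN
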