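import Pool.Agent.Helper61.LN.Fin
import Pool.Agent.Helper44.LN.IC
import Pool.Agent.Helper17.LN.SLX
import Pool.Agent.Helper15.LN.GOOD
import Pool.Agent.Helper98.LN.PAT
import Pool.Agent.Helper57.LN.SLIDE
import Pool.Agent.Helper14.LN.CONISO
import Pool.Agent.Helper79.LN.QUOT
import Pool.Agent.Helper82.LN.TAU
import Pool.Agent.Helper89.LN.ALG1
import Pool.Agent.Helper52.LN.ALG2
import Pool.Agent.Helper70.LN.SC
import Pool.Agent.Helper90.LN.CR
import Pool.Agent.Helper10.LN.INV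
import Pool.Agent.Helper22.LN.SUB
import Pool.Agent.Helper71.LN.CHG
import Pool.Agent.Helper22.LN.TT3
import Pool.Agent.Helper73.LN.KP
import Pool.Agent.Helper67.LN.K1
import Pool.Agent.Helper61.LN.DB2
import Pool.Agent.Helper7.LN.GEL
import Pool.Agent.Helper75.LN.T2
import Pool.Agent.Helper97.LN.SRF
import Pool.Agent.Helper61.LN.GES

/-!
# PROJECT LN (MP_c65973_gt): the theorem
-/

set_option autoImplicit false

namespace Pool.Agent.Helper61.LN

open Pool.Agent.Helper31.Sk Pool.Agent.Helper35.Skl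

universe u

theorem slide : S_SLIDE :=
  Pool.Agent.Helper57.LN.SLIDE.t Pool.Agent.Helper44.LN.IC.t1 Pool.Agent.Helper44.LN.IC.t2
    Pool.Agent.Helper17.LN.SLX.t Pool.Agent.Helper98.LN.PAT.t

theorem coniso : S_CONISO := Pool.Agent.Helper14.LN.CONISO.t slide

theorem good : S_GOOD := Pool.Agent.Helper15.LN.GOOD.t

theorem tau : S_TAU.{u} := Pool.Agent.Helper82.LN.TAU.t slide coniso

theorem gel : S_GEL := Pool.Agent.Helper7.LN.GEL.t Pool.Agent.Helper10.LN.INV.t
  Pool.Agent.Helper22.LN.SUB.t Pool.Agent.Helper73.LN.KP.t Pool.Agent.Helper67.LN.K1.t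
  Pool.Agent.Helper61.LN.DB2.t1 Pool.Agent.Helper61.LN.DB2.t2

theorem ges : S_GES := Pool.Agent.Helper61.LN.GES.t good coniso
  (Pool.Agent.Helper75.LN.T2.t good Pool.Agent.Helper44.LN.IC.t2)
  (Pool.Agent.Helper97.LN.SRF.t Pool.Agent.Helper44.LN.IC.t1)

theorem final_un (A : Type u) [Ring A] (M : MovesU A) (N : MovesD A)
    (hM : TanglesU M) (hN : TanglesD N) : ¬ SkeinInv M N un :=
  no_un Pool.Agent.Helper79.LN.QUOT.t tau Pool.Agent.Helper89.LN.ALG1.t good
    Pool.Agent.Helper22.LN.TT3.t2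
    (Pool.Agent.Helper71.LN.CHG.t2 (Pool.Agent.Helper71.LN.CHG.t1 Pool.Agent.Helper22.LN.SUB.t)
      Pool.Agent.Helper10.LN.INV.t) Pool.Agent.Helper22.LN.TT3.t1 A M N hM hN

theorem final_ge (A : Type u) [Ring A] (M : MovesU A) (N : MovesD A)
    (hM : TanglesU M) (hN : TanglesD N) : ¬ SkeinInv M N ge :=
  no_ge Pool.Agent.Helper79.LN.QUOT.t tau Pool.Agent.Helper89.LN.ALG1.t good ges gel
    Pool.Agent.Helper22.LN.TT3.t1 A M N hM hN

theorem final_cr (A : Type u) [Ring A] (M : MovesU A) (N : MovesD A)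
    (hM : TanglesU M) (hN : TanglesD N) : ¬ SkeinInv M N cr :=
  no_cr Pool.Agent.Helper79.LN.QUOT.t tau Pool.Agent.Helper52.LN.ALG2.t good
    (Pool.Agent.Helper90.LN.CR.t Pool.Agent.Helper70.LN.SC.t good) A M N hM hN

end Pool.Agent.Helper61.LN
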