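import Pool.Agent.Helper35.Skl.Defs

/-!
# Skein invariants with coefficients in a ring (MP_c65973_gt): definitions

`A`-linear combinations of knots, local moves which are pairs of `A`-linear combinations of tangles,
the set `A[𝒦] / ℳ` of the classes of linear combinations of knots, skein invariants.
-/

set_option autoImplicit false

namespace Pool.Agent.Helper61.LN

open Pool.Agent.Helper31.Sk Pool.Agent.Helper35.Skl

universe u

/-- The set of the knot diagrams. -/
abbrev Kn := {w : Word // IsKnot w}

/-- The `A`-linear combinations of knot diagrams. -/
abbrev KLin (A : Type u) [Ring A] := Kn →₀ A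

/-- Sets of local moves (unoriented tangles) with coefficients in `A`: an element `(k, S, T)` of such
a set consists of two `A`-linear combinations `S`, `T` of `k`-tangles (the `2 k` ends are at the top).
-/
abbrev MovesU (A : Type u) [Ring A] := Set (ℕ × (Word →₀ A) × (Word →₀ A))

/-- Sets of local moves (oriented tangles) with coefficients in `A`: an element `(o, S, T)` of such a
set consists of two `A`-linear combinations `S`, `T` of oriented tangles, whose ends (all at the top)
have the directions `o`. -/
abbrev MovesD (A : Type u) [Ring A] := Set (List Bool × (OWord →₀ A) × (OWord →₀ A))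

section
variable {A : Type u} [Ring A]

/-- All diagrams in the moves are tangle diagrams with at least one strand. -/
def TanglesU (M : MovesU A) : Prop :=
  ∀ m ∈ M, 1 ≤ m.1 ∧ ∀ t, t ∈ m.2.1.support ∨ t ∈ m.2.2.support → Legal 0 t (2 * m.1)

/-- All diagrams in the moves are oriented tangle diagrams with at least one strand. -/
def TanglesD (N : MovesD A) : Prop :=
  ∀ m ∈ N, m.1 ≠ [] ∧ ∀ t, t ∈ m.2.1.support ∨ t ∈ m.2.2.support → LegalO [] t m.1

/-- A linear combination of knot diagrams, considered as a linear combination of diagrams. -/
noncomputable def dg (x : KLin A) : Word →₀ A := x.mapDomain Subtype.val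

/-- Insertion of the linear combination `S` of tangles in a diagram: below it is `u`, above it is `v`,
to the left of it are `a` strands. -/
noncomputable def inU (u : Word) (a : ℕ) (v : Word) (S : Word →₀ A) : Word →₀ A :=
  S.mapDomain (fun t => u ++ shift a t ++ v)

/-- Insertion of the linear combination `S` of oriented tangles in an oriented diagram: below it is
`U`, above it is `V`, to the left and to the right of it are strands with the directions `l` and `r`;
afterwards the orientations are forgotten. -/
noncomputable def inD (U : OWord) (l r : List Bool) (V : OWord) (S : OWord →₀ A) : Word →₀ A :=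
  S.mapDomain (fun t => und (U ++ shiftO l r t ++ V))

/-- Two linear combinations of knots differ by one isotopy (planar isotopies and Reidemeister moves
of one knot) or by one application of a move of `M` or of `N`: `c` times the linear combination `x` of
knots, which is obtained by inserting the left side of the move in a diagram, is replaced by `c` times
the linear combination `y`, obtained by inserting the right side. -/
inductive OneMove (M : MovesU A) (N : MovesD A) : KLin A → KLin A → Prop
  | isotopy (w w' : Kn) (c : A) (z : KLin A) : Iso 0 0 w.1 w'.1 →
      OneMove M N (z + Finsupp.single w c) (z + Finsupp.single w' c)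
  | move (m : ℕ × (Word →₀ A) × (Word →₀ A)) (u v : Word) (a : ℕ) (c : A) (x y z : KLin A) :
      m ∈ M → dg x = inU u a v m.2.1 → dg y = inU u a v m.2.2 →
      OneMove M N (z + c • x) (z + c • y)
  | moveD (m : List Bool × (OWord →₀ A) × (OWord →₀ A)) (U V : OWord) (l r : List Bool) (c : A)
      (x y z : KLin A) : m ∈ N → LegalO [] U (l ++ r) → LegalO (l ++ m.1 ++ r) V [] →
      dg x = inD U l r V m.2.1 → dg y = inD U l r V m.2.2 →
      OneMove M N (z + c • x) (z + c • y)

/-- The set `A[𝒦] / (M, N)` of the classes of `A`-linear combinations of knots: two linear
combinations are in the same class if and only if there is a finite chain between them, whose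
consecutive terms differ by one isotopy or by one application of a move. -/
def Classes (M : MovesU A) (N : MovesD A) : Type u := Quot (OneMove M N)

/-- The natural map from the knot diagrams to the classes. -/
noncomputable def cls (M : MovesU A) (N : MovesD A) (w : Kn) : Classes M N :=
  Quot.mk _ (Finsupp.single w 1)

/-- The knot invariant `I` is the skein invariant which is defined by the moves `M`, `N`: there is an
injective map `f` from the set of all the classes with `I = f ∘ p`, where `p` is the natural map. -/
def SkeinInv (M : MovesU A) (N : MovesD A) {X : Type} (I : Word → X) : Prop :=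
  ∃ f : Classes M N → X, Function.Injective f ∧ ∀ w : Kn, I w.1 = f (cls M N w)

/-- The relations of the module of the classes. -/
noncomputable def RelK (M : MovesU A) (N : MovesD A) : Submodule A (KLin A) :=
  Submodule.span A
    ({x | ∃ w w' : Kn, Iso 0 0 w.1 w'.1 ∧ x = Finsupp.single w 1 - Finsupp.single w' 1} ∪
      {x | ∃ (m : ℕ × (Word →₀ A) × (Word →₀ A)) (u v : Word) (a : ℕ) (y z : KLin A), m ∈ M ∧
        dg y = inU u a v m.2.1 ∧ dg z = inU u a v m.2.2 ∧ x = y - z} ∪
      {x | ∃ (m : List Bool × (OWord →₀ A) × (OWord →₀ A)) (U V : OWord) (l r : List Bool)
        (y z : KLin A), m ∈ N ∧ LegalO [] U (l ++ r) ∧ LegalO (l ++ m.1 ++ r) V [] ∧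
        dg y = inD U l r V m.2.1 ∧ dg z = inD U l r V m.2.2 ∧ x = y - z})

/-- The class of a knot in the module of the classes. -/
noncomputable def skn (M : MovesU A) (N : MovesD A) (w : Kn) : KLin A ⧸ RelK M N :=
  (RelK M N).mkQ (Finsupp.single w 1)

end

end Pool.Agent.Helper61.LN
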