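import Pool.Agent.Helper61.LN.Goals

/-!
# PROJECT LN (MP_c65973_gt): the theorem from the goals
-/

set_option autoImplicit false

namespace Pool.Agent.Helper61.LN

open Pool.Agent.Helper31.Sk Pool.Agent.Helper35.Skl

universe u

section
variable {A : Type u} [Ring A]

/-- the map from the classes to the module of the classes -/
noncomputable def phi (hQ : S_QUOT.{u}) (M : MovesU A) (N : MovesD A) :
    Classes M N → KLin A ⧸ RelK M N :=
  Quot.lift (fun x => (RelK M N).mkQ x) (fun x y h =>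
    (Submodule.Quotient.eq _).2 ((hQ A M N x y).1 (Relation.EqvGen.rel _ _ h)))

theorem phi_bij (hQ : S_QUOT.{u}) (M : MovesU A) (N : MovesD A) :
    Function.Bijective (phi hQ M N) := by
  constructor
  · intro a b
    induction a using Quot.ind with
    | mk x =>
      induction b using Quot.ind with
      | mk y =>
        intro h
        have h1 : (RelK M N).mkQ x = (RelK M N).mkQ y := h
        exact Quot.eqvGen_sound ((hQ A M N x y).2 ((Submodule.Quotient.eq _).1 h1))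
  · intro p
    obtain ⟨x, rfl⟩ := (RelK M N).mkQ_surjective p
    exact ⟨Quot.mk _ x, rfl⟩

theorem skein_mod (hQ : S_QUOT.{u}) {M : MovesU A} {N : MovesD A} {X : Type} {I : Word → X}
    (h : SkeinInv M N I) : ∃ f : (KLin A ⧸ RelK M N) → X, Function.Injective f ∧
      ∀ w : Kn, I w.1 = f (skn M N w) := by
  obtain ⟨f, hf, hI⟩ := h
  refine ⟨f ∘ (Equiv.ofBijective _ (phi_bij hQ M N)).symm,
    hf.comp (Equiv.ofBijective _ (phi_bij hQ M N)).symm.injective, fun w => ?_⟩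
  rw [hI w]
  have e : (Equiv.ofBijective _ (phi_bij hQ M N)).symm (skn M N w) = cls M N w := by
    rw [Equiv.symm_apply_eq]
    rfl
  simp only [Function.comp_apply, e]

/-- the sums of `n` trefoil knots -/
def Wn (hG : S_GOOD) (n : ℕ) : Kn :=
  ⟨(con (TT 3))^[n] unknot, by
    induction n with
    | zero => exact isKnot_unknot
    | succ n ih =>
      rw [Function.iterate_succ_apply']
      exact hG.1.knot _ ih⟩

theorem tau_iter (hG : S_GOOD) {M : MovesU A} {N : MovesD A}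
    (τ : (KLin A ⧸ RelK M N) →ₗ[A] (KLin A ⧸ RelK M N))
    (hτ : ∀ w : Kn, τ (skn M N w) = skn M N ⟨con (TT 3) w.1, hG.1.knot w.1 w.2⟩) (n : ℕ) :
    (τ.toAddMonoidHom)^[n] (skn M N ⟨unknot, isKnot_unknot⟩) = skn M N (Wn hG n) := by
  induction n with
  | zero => rfl
  | succ n ih =>
    rw [Function.iterate_succ_apply', ih]
    have h1 : τ.toAddMonoidHom (skn M N (Wn hG n)) = τ (skn M N (Wn hG n)) := rfl
    rw [h1, hτ]
    congr 1
    apply Subtype.ext
    show con (TT 3) ((con (TT 3))^[n] unknot) = (con (TT 3))^[n + 1] unknot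
    rw [Function.iterate_succ_apply']

end

theorem op_three (i : ℕ) (g : Gen) (φ : (ℕ → ZMod 3) → ℕ) (x : ℕ → ZMod 3) :
    op i g (fun y => 3 * φ y) x = 3 * op i g φ x := by
  cases g with
  | cup => simp only [op, Finset.mul_sum]
  | cap =>
    simp only [op]
    split_ifs <;> simp
  | pos => rfl
  | neg => rfl

theorem e3_con (h3 : S_TT3) (s : ℕ × Gen) (w : Word) (x : ℕ → ZMod 3) :
    e3 (con (TT 3) (s :: w)) x = 3 * e3 (s :: w) x := by
  obtain ⟨i, g⟩ := s
  show op i g (ev (TT 3 ++ w) fun _ => 1) x = 3 * op i g (ev w fun _ => 1) x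
  rw [ev_append]
  have e : ev (TT 3) (ev w fun _ => 1) = fun y => 3 * ev w (fun _ => 1) y :=
    funext fun y => h3 _ y
  rw [e, op_three]

theorem iter_cons (n : ℕ) : ∃ w, (con (TT 3))^[n] unknot = (0, .cup) :: w := by
  induction n with
  | zero => exact ⟨_, rfl⟩
  | succ n ih =>
    obtain ⟨w, hw⟩ := ih
    rw [Function.iterate_succ_apply', hw]
    exact ⟨_, rfl⟩

theorem e3_unknot : e3 unknot 0 = 3 := by
  simp [e3, unknot, ev, op, insF]

theorem e3_iter (h3 : S_TT3) (n : ℕ) : e3 ((con (TT 3))^[n] unknot) 0 = 3 ^ (n + 1) := by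
  induction n with
  | zero => simpa using e3_unknot
  | succ n ih =>
    obtain ⟨w, hw⟩ := iter_cons n
    rw [Function.iterate_succ_apply', hw, e3_con h3, ← hw, ih, pow_succ 3 (n + 1), mul_comm]

/-- the unknotting number -/
theorem no_un (hQ : S_QUOT.{u}) (hT : S_TAU.{u}) (hA : S_ALG1.{u}) (hG : S_GOOD) (hU : S_UNU)
    (hL : S_UNL) (h3 : S_TT3) (A : Type u) [Ring A] (M : MovesU A) (N : MovesD A)
    (hM : TanglesU M) (hN : TanglesD N) : ¬ SkeinInv M N un := by
  intro h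
  obtain ⟨f, hf, hI⟩ := skein_mod hQ h
  obtain ⟨τ, hτ⟩ := hT A M N hM hN (TT 3) hG.1
  have hun : ∀ n : ℕ, un ((con (TT 3))^[n] unknot) = n := by
    intro n
    have h1 := hU n
    obtain ⟨j, hj⟩ : ∃ j : ℕ, un ((con (TT 3))^[n] unknot) = j :=
      ⟨_, (ENat.natCast_toNat (ne_top_of_le_ne_top (ENat.natCast_ne_top n) h1)).symm⟩
    have h2 := hL _ j hj
    rw [e3_iter h3] at h2
    have h4 : n + 1 ≤ j + 1 := (Nat.pow_le_pow_iff_right (by norm_num)).1 h2
    rw [hj] at h1 ⊢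
    have h5 : j ≤ n := by exact_mod_cast h1
    have h6 : j = n := by omega
    rw [h6]
  have hfn : ∀ n : ℕ, f ((τ.toAddMonoidHom)^[n] (skn M N ⟨unknot, isKnot_unknot⟩)) = n := by
    intro n
    rw [tau_iter hG τ hτ n, ← hI]
    exact hun n
  have hinj : Function.Injective
      (fun n : ℕ => (τ.toAddMonoidHom)^[n] (skn M N ⟨unknot, isKnot_unknot⟩)) := by
    intro a b hab
    have h1 : (a : ℕ∞) = b := by
      rw [← hfn a, ← hfn b]
      exact congrArg f hab
    exact_mod_cast h1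
  have key : ∀ z : KLin A ⧸ RelK M N, (∀ p, f p = ⊤ → p = z) → False := by
    intro z hz
    refine hA _ τ.toAddMonoidHom (skn M N ⟨unknot, isKnot_unknot⟩) z (fun p => ?_)
      (Set.infinite_range_of_injective hinj)
    by_cases hp : f p = ⊤
    · exact Or.inr (hz p hp)
    · left
      refine ⟨(f p).toNat, hf ?_⟩
      rw [hfn, ENat.natCast_toNat hp]
  by_cases hz : ∃ z, f z = ⊤
  · obtain ⟨z, hz⟩ := hz
    exact key z fun p hp => hf (hp.trans hz.symm)
  · exact key 0 fun p hp => (hz ⟨p, hp⟩).elim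

/-- the genus -/
theorem no_ge (hQ : S_QUOT.{u}) (hT : S_TAU.{u}) (hA : S_ALG1.{u}) (hG : S_GOOD) (hS : S_GES)
    (hL : S_GEL) (h3 : S_TT3) (A : Type u) [Ring A] (M : MovesU A) (N : MovesD A)
    (hM : TanglesU M) (hN : TanglesD N) : ¬ SkeinInv M N ge := by
  intro h
  obtain ⟨f, hf, hI⟩ := skein_mod hQ h
  obtain ⟨τ, hτ⟩ := hT A M N hM hN (TT 3) hG.1
  set v : ℕ → ℕ∞ := fun n => ge ((con (TT 3))^[n] unknot) with hv
  have v0 : v 0 = 0 := by
    refine le_antisymm (sInf_le ?_) zero_le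
    exact ⟨0, [], rfl, rfl, iso_refl _ _ _⟩
  have vs : ∀ n, v (n + 1) ≤ v n + 1 := by
    intro n
    simp only [hv]
    rw [Function.iterate_succ_apply']
    exact hS _ (Wn hG n).2
  have vl : ∀ n : ℕ, (n : ℕ∞) ≤ 4 * v n := by
    intro n
    by_cases ht : v n = ⊤
    · rw [ht]
      simp
    · obtain ⟨h, hh⟩ : ∃ h : ℕ, v n = h := ⟨_, (ENat.natCast_toNat ht).symm⟩
      have h2 := hL _ h (Wn hG n).2 hh
      have e : e3 (Wn hG n).1 0 = 3 ^ (n + 1) := e3_iter h3 n
      rw [e] at h2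
      have h4 : n + 1 ≤ 4 * h + 1 := (Nat.pow_le_pow_iff_right (by norm_num)).1 h2
      rw [hh]
      exact_mod_cast (by omega : n ≤ 4 * h)
  have vall : ∀ m : ℕ, ∃ n, v n = m := by
    classical
    intro m
    have hex : ∃ n, (m : ℕ∞) ≤ v n := by
      refine ⟨4 * m, ?_⟩
      have h1 := vl (4 * m)
      by_cases ht : v (4 * m) = ⊤
      · rw [ht]; exact le_top
      · obtain ⟨h, hh⟩ : ∃ h : ℕ, v (4 * m) = h := ⟨_, (ENat.natCast_toNat ht).symm⟩
        rw [hh] at h1 ⊢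
        have h2 : 4 * m ≤ 4 * h := by exact_mod_cast h1
        exact_mod_cast (by omega : m ≤ h)
    have hsp := Nat.find_spec hex
    have hmin := fun k => Nat.find_min hex (m := k)
    rcases hn : Nat.find hex with _ | n
    · rw [hn, v0] at hsp
      refine ⟨0, ?_⟩
      rw [v0]
      exact (le_antisymm hsp zero_le).symm
    · rw [hn] at hsp
      refine ⟨n + 1, le_antisymm ?_ hsp⟩
      have h1 := hmin n (by omega)
      rw [not_le] at h1
      exact (vs n).trans (Order.add_one_le_of_lt h1)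
  have hfn : ∀ n : ℕ, f ((τ.toAddMonoidHom)^[n] (skn M N ⟨unknot, isKnot_unknot⟩)) = v n := by
    intro n
    rw [tau_iter hG τ hτ n, ← hI]
    rfl
  have hinf : (Set.range
      (fun n : ℕ => (τ.toAddMonoidHom)^[n] (skn M N ⟨unknot, isKnot_unknot⟩))).Infinite := by
    intro hfin
    have h1 := hfin.image f
    refine Set.infinite_range_of_injective (f := fun m : ℕ => (m : ℕ∞))
      (fun a b hab => by
        have hab' : (a : ℕ∞) = b := hab
        exact_mod_cast hab') (h1.subset ?_)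
    rintro _ ⟨m, rfl⟩
    obtain ⟨n, hn⟩ := vall m
    exact ⟨_, ⟨n, rfl⟩, (hfn n).trans hn⟩
  have key : ∀ z : KLin A ⧸ RelK M N, (∀ p, f p = ⊤ → p = z) → False := by
    intro z hz
    refine hA _ τ.toAddMonoidHom (skn M N ⟨unknot, isKnot_unknot⟩) z (fun p => ?_) hinf
    by_cases hp : f p = ⊤
    · exact Or.inr (hz p hp)
    · left
      obtain ⟨n, hn⟩ := vall (f p).toNat
      refine ⟨n, hf ?_⟩
      rw [hfn, hn, ENat.natCast_toNat hp]
  by_cases hz : ∃ z, f z = ⊤
  · obtain ⟨z, hz⟩ := hz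
    exact key z fun p hp => hf (hp.trans hz.symm)
  · exact key 0 fun p hp => (hz ⟨p, hp⟩).elim

/-- the crossing number -/
theorem no_cr (hQ : S_QUOT.{u}) (hT : S_TAU.{u}) (hA : S_ALG2.{u}) (hG : S_GOOD) (hC : S_CR)
    (A : Type u) [Ring A] (M : MovesU A) (N : MovesD A)
    (hM : TanglesU M) (hN : TanglesD N) : ¬ SkeinInv M N cr := by
  classical
  intro h
  obtain ⟨f, hf, hI⟩ := skein_mod hQ h
  obtain ⟨τ3, hτ3⟩ := hT A M N hM hN (TT 3) hG.1
  obtain ⟨τ5, hτ5⟩ := hT A M N hM hN (TT 5) hG.2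
  obtain ⟨K, hK⟩ := hC
  set x : ℕ → KLin A ⧸ RelK M N := fun m =>
    if h : m = 0 ∨ 3 ≤ m then skn M N ⟨K m, (hK m h).1⟩ else 0 with hx
  have hxm : ∀ m (h : m = 0 ∨ 3 ≤ m), x m = skn M N ⟨K m, (hK m h).1⟩ := by
    intro m h
    simp only [hx, dif_pos h]
  have hfx : ∀ m, (m = 0 ∨ 3 ≤ m) → f (x m) = m := by
    intro m h
    rw [hxm m h, ← hI]
    exact (hK m h).2.1
  have hz : ∀ k : ℕ, ∃ z, ∀ p, f p = k → p = z := by
    intro k
    by_cases h : ∃ z, f z = k
    · obtain ⟨z, hz⟩ := h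
      exact ⟨z, fun p hp => hf (hp.trans hz.symm)⟩
    · exact ⟨0, fun p hp => (h ⟨p, hp⟩).elim⟩
  obtain ⟨z1, hz1⟩ := hz 1
  obtain ⟨z2, hz2⟩ := hz 2
  refine hA _ τ3.toAddMonoidHom τ5.toAddMonoidHom x z1 z2 ?_ ?_ ?_ ?_
  · intro p
    by_cases h1 : f p = 1
    · exact Or.inr (Or.inl (hz1 p h1))
    by_cases h2 : f p = 2
    · exact Or.inr (Or.inr (hz2 p h2))
    · have h3 : f p = 0 ∨ 3 ≤ f p := by omega
      exact Or.inl ⟨f p, h3, hf (hfx _ h3).symm⟩
  · intro m m' hm hm' he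
    rw [← hfx m hm, ← hfx m' hm', he]
  · intro m hm
    apply hf
    have h1 : τ3.toAddMonoidHom (x m) = τ3 (x m) := rfl
    rw [h1, hfx (m + 3) (by omega), hxm m hm, hτ3, ← hI]
    exact (hK m hm).2.2.1
  · intro m hm
    apply hf
    have h1 : τ5.toAddMonoidHom (x m) = τ5 (x m) := rfl
    rw [h1, hfx (m + 5) (by omega), hxm m hm, hτ5, ← hI]
    exact (hK m hm).2.2.2

end Pool.Agent.Helper61.LN
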