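import Pool.Agent.Helper61.LN.Goals
import Pool.Agent.Helper35.Skl.Bnd

/-!
# PROJECT LN (MP_c65973_gt): goals, the brackets
-/

set_option autoImplicit false

namespace Pool.Agent.Helper61.LN

open Pool.Agent.Helper31.Sk Pool.Agent.Helper35.Skl

/-- the bracket of a connected sum with a torus knot -/
def S_SC : Prop := ∀ n : ℕ, n = 3 ∨ n = 5 → ∃ s s' : ℚ,
  (∀ w, IsKnot w → bk 19 (1 / 19) (con (TT n) w) = s * bk 19 (1 / 19) w) ∧
  (∀ w, IsKnot w → bk (1 / 19) 19 (con (TT n) w) = s' * bk (1 / 19) 19 w) ∧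
  s * s' ≠ 0 ∧ padicValRat 19 (s * s') = -(4 * n : ℤ)

end Pool.Agent.Helper61.LN
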