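import Pool.Agent.Helper64.LN.GoalsA

set_option autoImplicit false

/-! Packet LN-H0: number of integers between two reals. -/

namespace Pool.Agent.Helper61.LN

open Pool.Agent.Helper64.LN

theorem set_eq (A B : ℝ) (h : A ≤ B) :
    {k : ℤ | ((k : ℝ) - A) * (k - B) < 0} = ((Finset.Ioo ⌊A⌋ ⌈B⌉ : Finset ℤ) : Set ℤ) := by
  ext k
  rw [Finset.mem_coe, Finset.mem_Ioo, Int.floor_lt, Int.lt_ceil]
  change ((k : ℝ) - A) * (k - B) < 0 ↔ _
  constructor
  · intro hk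
    rcases mul_neg_iff.1 hk with ⟨h1, h2⟩ | ⟨h1, h2⟩
    · exact ⟨by linarith, by linarith⟩
    · exfalso
      linarith
  · rintro ⟨h1, h2⟩
    exact mul_neg_of_pos_of_neg (by linarith) (by linarith)

theorem h0_le (A B : ℝ) (h : A ≤ B) :
    {k : ℤ | ((k : ℝ) - A) * (k - B) < 0}.Finite ∧
      |A - B| - 1 ≤ (Nat.card {k : ℤ // ((k : ℝ) - A) * (k - B) < 0} : ℝ) ∧
      (Nat.card {k : ℤ // ((k : ℝ) - A) * (k - B) < 0} : ℝ) ≤ |A - B| + 1 := by
  have e := set_eq A B h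
  have hc : Nat.card {k : ℤ // ((k : ℝ) - A) * (k - B) < 0} = (⌈B⌉ - ⌊A⌋ - 1).toNat := by
    have e1 : Nat.card {k : ℤ // ((k : ℝ) - A) * (k - B) < 0} =
        Set.ncard {k : ℤ | ((k : ℝ) - A) * (k - B) < 0} := rfl
    rw [e1, e, Set.ncard_coe_finset, Int.card_Ioo]
  have h1 := Int.floor_le A
  have h2 := Int.lt_floor_add_one A
  have h3 := Int.le_ceil B
  have h4 := Int.ceil_lt_add_one B
  have h5 : |A - B| = B - A := by
    rw [abs_sub_comm, abs_of_nonneg (by linarith)]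
  have h6 : ((⌈B⌉ - ⌊A⌋ - 1 : ℤ) : ℝ) ≤ (((⌈B⌉ - ⌊A⌋ - 1).toNat : ℕ) : ℝ) := by
    have := Int.self_le_toNat (⌈B⌉ - ⌊A⌋ - 1)
    exact_mod_cast this
  push_cast at h6
  refine ⟨by rw [e]; exact Finset.finite_toSet _, ?_, ?_⟩
  · rw [hc, h5]
    linarith
  · rw [hc, h5]
    rcases le_total 0 (⌈B⌉ - ⌊A⌋ - 1) with h7 | h7
    · have h8 : (((⌈B⌉ - ⌊A⌋ - 1).toNat : ℕ) : ℝ) = ((⌈B⌉ - ⌊A⌋ - 1 : ℤ) : ℝ) := by
        have := Int.toNat_of_nonneg h7
        exact_mod_cast this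
      rw [h8]
      push_cast
      linarith
    · rw [Int.toNat_of_nonpos h7]
      push_cast
      linarith

theorem goalH0 : GoalH0 := by
  intro A B
  rcases le_total A B with h | h
  · exact h0_le A B h
  · have h1 := h0_le B A h
    have e : ∀ k : ℤ, ((k : ℝ) - A) * (k - B) = ((k : ℝ) - B) * (k - A) := fun k => mul_comm _ _
    simp only [e]
    rw [abs_sub_comm A B]
    exact h1

end Pool.Agent.Helper61.LN
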